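import Mathlib
import Pool.Agent.U792.EP.Main

/-!
The Fermat-Catalan equation `x ^ p + y ^ q = z ^ n` when the exponents `p` and `q` have a common odd
divisor `m ≥ 3`: with `X = x ^ (p / m)` and `Y = ± y ^ (q / m)` it is `X ^ m + Y ^ m = z ^ n`. Let
`X`, `Y` be coprime and let `X + Y` be prime to `m` (first case; for prime `m`: `m ∤ z`). The
exponent `n` is free.

Let `Q` be a divisor of `X Y`, or more generally of Cauchy's number
`W = ((X + Y) ^ m - X ^ m - Y ^ m) / (X + Y)`, for which `n` and `φ (Q)` are coprime; for prime `n`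
this means that `n ^ 2` and the primes `≡ 1` modulo `n` do not divide `Q`. Then `Q` is small. In
particular, for positive `X`, `Y` and `n ≥ m` the numbers `X` and `Y` both have a divisor `≥ (n / m)
max (X, Y) / (X + Y) ^ ((m - 1) / n)` of the other kind, and there is no solution at all for which
`n` is coprime to `φ (X)` or to `φ (Y)`; and for every `n ≥ 2` there is no solution for which
`n` is coprime to `φ (|W|)`.

Proof. `|X + Y| = u ^ n` and `(X ^ m + Y ^ m) / (X + Y) = v ^ n`, and so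
`W = ± ((u ^ (m - 1)) ^ n - v ^ n)`. The map `t ↦ t ^ n` is injective on the units modulo `Q`, so
that `Q` divides `v - u ^ (m - 1)`, which is not zero and is small.
-/

set_option autoImplicit false

namespace Pool.Agent.Results.MP_2738db_nt.CommonOddExponent

open Pool.Agent.U792.EP

theorem result (m n : ℕ) (hm : 3 ≤ m) (hodd : Odd m) (hn : 1 ≤ n) (X Y z : ℤ) (hX : X ≠ 0)
    (hY : Y ≠ 0) (hXY : IsCoprime X Y) (hz : IsCoprime (m : ℤ) (X + Y))
    (h : X ^ m + Y ^ m = z ^ n) :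
    (∀ Q : ℕ, (Q : ℤ) * (X + Y) ∣ (X + Y) ^ m - X ^ m - Y ^ m → Nat.gcd n (Nat.totient Q) = 1 →
      ((Q : ℤ) + 1) ^ n ≤ (|X| + |Y|) ^ (m - 1) ∧
      ((n : ℤ) * min |X + Y| (max |X| |Y|) * Q) ^ n ≤
        ((m : ℤ) * min |X| |Y|) ^ n * (|X| + |Y|) ^ (m - 1)) ∧
    X * Y * (X + Y) ∣ (X + Y) ^ m - X ^ m - Y ^ m ∧
    (2 ≤ n → ∀ W : ℤ, W * (X + Y) = (X + Y) ^ m - X ^ m - Y ^ m →
      1 < Nat.gcd n (Nat.totient W.natAbs)) ∧
    (m ≤ n → 1 < Nat.gcd n (Nat.totient (X * Y).natAbs)) ∧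
    (m + 3 ≤ 2 * n → 0 < X → 0 < Y → 1 < Nat.gcd n (Nat.totient (X * Y).natAbs)) ∧
    (m ≤ n → 0 < X → 0 < Y → 1 < Nat.gcd n (Nat.totient X.natAbs) ∧
      1 < Nat.gcd n (Nat.totient Y.natAbs)) := by
  have hn0 : n ≠ 0 := by omega
  have key : ∀ t : ℕ, ¬ Nat.Coprime t n → 1 < Nat.gcd n t := by
    intro t ht
    have h1 : 0 < Nat.gcd n t := Nat.gcd_pos_of_pos_left _ (by omega)
    have h2 : Nat.gcd n t ≠ 1 := fun h3 => ht (Nat.Coprime.symm h3)
    omega
  refine ⟨?_, cauchy_dvd (by omega) hodd hXY, ?_, ?_, ?_, ?_⟩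
  · intro Q hQ hQn
    exact main hm hodd hn0 hX hY hXY hz h hQ (Nat.Coprime.symm hQn)
  · intro hn2 W hW
    exact key _ (cor0 hm hodd hn2 hXY hz h hW)
  · intro hmn
    exact key _ (cor1 hm hodd hmn hX hY hXY hz h)
  · intro hmn hX0 hY0
    exact key _ (cor3 hm hodd hmn hX0 hY0 hXY hz h)
  · intro hmn hX0 hY0
    refine ⟨key _ (cor2 hm hodd hmn hX0 hY0 hXY hz h), key _ (cor2 (Y := X) hm hodd hmn hY0 hX0
      hXY.symm (by rw [add_comm]; exact hz) (by rw [add_comm]; exact h))⟩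

end Pool.Agent.Results.MP_2738db_nt.CommonOddExponent
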