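import Pool.Agent.U828.KD.FC

/-!
# The Fermat-Catalan equation with two bases near the values of arbitrary functions of given orders

Let `f₀, f₁, …` be ARBITRARY real functions on the integers, of different orders `c₀, c₁, … > 0`: for any finitely many of
them there is a common `d ≥ 2`, greater than their orders, such that the differences of order `d` of `f_l` have for large `n`
a constant sign and are `n ^ (c_l - d + o(1))` in absolute value (the `o(1)` may oscillate; no smoothness, no formula; for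
example `n ^ c` with `c` not an integer, `n ^ j log n`, `j ≥ 1`, and these plus real polynomials of degree less than `d`, not
formalised here).

**Theorem.** There is ONE set `E` of integers of density zero such that for all `i ≠ j`, all `U` and, with some
`κ = κ(i, j, U) > 0`, all but finitely many integers `n` outside `E`: NO two coprime integers `x`, `y` with
`|x - f_i(n)| ≤ U`, `|y - f_j(n)| ≤ U` are two of the three bases of a solution of the Fermat-Catalan equation
`x ^ p + y ^ q = z ^ r`, `x ^ p + z ^ r = y ^ q` or `y ^ q + z ^ r = x ^ p` with a third base `z ≤ exp (n ^ κ)`. All the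
exponents `p, q, r ≥ 2` are free, except that `r ≥ 3` if `p` and `q` are both even.

Proof. An `r`-th derivative test for arbitrary functions (`Pool.Agent.U828.KD.small_order`, helper828) shows that the pairs of
the integer parts are well distributed in the residue classes modulo all `m ≤ n ^ δ`. So each pair of bases occurs for few
`n`, and the theorem on lopsided pairs (starting file `MP_509488_nt.LopsidedPairs`, library `Pool.Agent.N741.LD`) settles
all large third exponents; the residue sieve for pairs of bases (library `Pool.Agent.H374R2`) settles the others, as in the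
starting file `MP_2738db_nt.GeneralisedPolynomialBases` (library `Pool.Agent.N666.VE`), where the functions are two
generalised polynomials. The null set for all pairs of functions: `Pool.Agent.N666.TM.diag`.
-/

set_option autoImplicit false

namespace Pool.Agent.Results.MP_2738db_nt.FunctionsOfGivenOrder

open Finset

/-- The differences of order `d` of `f` have for large `n` a constant sign and are `n ^ (c - d + o(1))` in absolute
value. -/
def Order (d : ℕ) (c : ℝ) (f : ℕ → ℝ) : Prop :=
  ∀ ε : ℝ, 0 < ε → ∃ N₀ : ℕ,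
    (∀ n : ℕ, N₀ ≤ n → (n : ℝ) ^ (c - d - ε) ≤ (fwdDiff 1)^[d] f n ∧ (fwdDiff 1)^[d] f n ≤ (n : ℝ) ^ (c - d + ε)) ∨
    (∀ n : ℕ, N₀ ≤ n → (n : ℝ) ^ (c - d - ε) ≤ -(fwdDiff 1)^[d] f n ∧ -(fwdDiff 1)^[d] f n ≤ (n : ℝ) ^ (c - d + ε))

/-- For every `k` the functions `f 0, …, f k` have the orders `c 0, …, c k` with a common order `d ≥ 2` of differences,
greater than `c 0, …, c k`. -/
def Orders (c : ℕ → ℝ) (f : ℕ → ℕ → ℝ) : Prop :=
  ∀ k : ℕ, ∃ d : ℕ, 2 ≤ d ∧ ∀ l ≤ k, c l < d ∧ Order d (c l) (f l)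

/-- `E` has density zero, in all intervals `(N, 2 N]`. -/
def Null (E : Set ℕ) : Prop :=
  ∀ ε : ℝ, 0 < ε → ∃ N₀ : ℕ, ∀ N : ℕ, N₀ ≤ N → ({n : ℕ | N < n ∧ n ≤ 2 * N ∧ n ∈ E}.ncard : ℝ) ≤ ε * N

/-- `x` and `y` are coprime and two of the three bases of a solution with a third base at most `W`. -/
def TwoBases (W : ℝ) (x y : ℕ) : Prop := ∃ z p q r : ℕ, 1 ≤ x ∧ 1 ≤ y ∧ Nat.Coprime x y ∧ 1 ≤ z ∧
  (z : ℝ) ≤ W ∧ 2 ≤ p ∧ 2 ≤ q ∧ 2 ≤ r ∧ (3 ≤ r ∨ ¬ 2 ∣ p ∨ ¬ 2 ∣ q) ∧
  (x ^ p + y ^ q = z ^ r ∨ x ^ p + z ^ r = y ^ q ∨ y ^ q + z ^ r = x ^ p)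

/-- There is one set `E` of density zero such that for all `i ≠ j` and `U`, with some `κ > 0`, for all but finitely many `n`
outside `E` no `x`, `y` within `U` of `f_i(n)`, `f_j(n)` are coprime and two bases of a solution with a third base at most
`exp (n ^ κ)`. -/
theorem result (c : ℕ → ℝ) (hc0 : ∀ l, 0 < c l) (hc : Function.Injective c) (f : ℕ → ℕ → ℝ) (hf : Orders c f) :
    ∃ E : Set ℕ, Null E ∧ ∀ i j U : ℕ, i ≠ j → ∃ κ : ℝ, 0 < κ ∧
      {n : ℕ | n ∉ E ∧ ∃ x y : ℕ, |(x : ℝ) - f i n| ≤ U ∧ |(y : ℝ) - f j n| ≤ U ∧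
        TwoBases (Real.exp ((n : ℝ) ^ κ)) x y}.Finite := by
  classical
  obtain ⟨κ, hκ, E, hE, h⟩ := Pool.Agent.U828.KD.FC.null_set hc0 hc f hf
  refine ⟨E, ?_, fun i j U hij => ⟨κ i j U, hκ i j U, ?_⟩⟩
  · intro ε hε
    obtain ⟨N₀, h0⟩ := hE ε hε
    refine ⟨N₀, fun N hN => ?_⟩
    have h1 := h0 N hN
    rw [Nat.card_Ioc, show 2 * N - N = N by omega] at h1
    refine le_trans (le_of_eq ?_) h1
    congr 2
    ext n
    simp only [Set.mem_ofPred_eq, mem_Ioc, and_assoc]
  · refine (h i j U hij).subset ?_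
    rintro n ⟨hn, x, y, h1, h2, h3⟩
    exact ⟨hn, x, y, ⟨h1, h2⟩, h3⟩

end Pool.Agent.Results.MP_2738db_nt.FunctionsOfGivenOrder
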