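import Pool.Agent.N375.AV.F
import Pool.Agent.N375.AV.Ex
import Pool.Agent.S821.FCBases

/-!
# The largest bases of the solutions keep away from the values of additive functions and of their compositions

Consider the solutions of `a ^ m + b ^ n = c ^ k` in pairwise coprime positive integers `a`, `b`, `c` with exponents
`m, n, k ≥ 2`. Let `F = f_1 ∘ ⋯ ∘ f_r` be a composition of functions which are dominated by the largest prime factor of the
argument: additive functions with `f (q^j) ≤ C q^j` and different values at different large primes (for example the sum of the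
prime factors), the largest prime factor, Kempner's function. Let `G` have steps bounded below by a positive constant and growth
at most `v^d`, `d ≥ 1`; for example `G v = α v^d`. Let `0 ≤ θ < 1`.

There is `R`, depending only on `d` and `θ`, such that for all `l ≤ N` but `K N exp (- c' (log N)^(1/(r+1)))` there is NO
solution with at least one exponent `≥ R` and `|max (a, b, c) - G (F l)| ≤ F(l)^θ`. All three exponents are free apart from
this, and the values `c ^ k` are not bounded. For example (`r = 1`, `G v = v`) the largest base of a solution with an exponent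
`≥ R(θ)` is within `P^θ` of the largest prime factor `P` of only `K N exp (- c' (log N)^(1/2))` of the integers up to `N`.
The functions `F` take their values with large multiplicities and `F(l)` is in general of smaller size than `l`, and so this
does not follow from the number of the solutions.

Proof. For every `ε > 0` there is `R` such that at most `X ^ ε` value triples come from the solutions with bases at most `X`
and an exponent `≥ R` (starting theorem `CountByBases`); the exponents of the bases `≥ 2` are at most a power of `log X`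
(linear forms in two logarithms), and so the largest bases are at most `X ^ (2 ε)` in number. The preimage of a thin set under
such a function is thin (`Pool.Agent.N375.AV`).
-/

set_option autoImplicit false

namespace Pool.Agent.Results.MP_2738db_nt.LargestBaseAdditiveValues

open Finset
open Pool.Agent.N733.TG (Expanding expanding_pow)
open Pool.Agent.N375.AV (PD comp good_nat pd_additive pd_largest pd_kempner)

/-- `a ^ m + b ^ n = c ^ k` with pairwise coprime positive `a, b, c` and exponents at least `2`, one of them at least `R` -/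
def Solution (R a b c m n k : ℕ) : Prop :=
  0 < a ∧ 0 < b ∧ 0 < c ∧ Nat.Coprime a b ∧ Nat.Coprime a c ∧ Nat.Coprime b c ∧ 2 ≤ m ∧ 2 ≤ n ∧ 2 ≤ k ∧
    (R ≤ m ∨ R ≤ n ∨ R ≤ k) ∧ a ^ m + b ^ n = c ^ k

/-- **The largest base and the values of additive functions and of their compositions.** Let `d ≥ 1` and `0 ≤ θ < 1`. There is
`R` such that for all `G` with steps `≥ const > 0` and growth at most `v^d` (`Expanding G d`) and all compositions
`F = f_1 ∘ ⋯ ∘ f_r` of functions dominated by the largest prime factor (`PD`; `F = comp fs`, `fs` the list of the `f_i`) there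
are `c' > 0` and `K` such that for all `N ≥ 1`, for all `l ≤ N` but `K N exp (- c' (log N)^(1/(r+1)))`, there is no solution of
`a ^ m + b ^ n = c ^ k` in pairwise coprime positive integers with exponents `≥ 2`, at least one of them `≥ R`, and
`|max (a, b, c) - G (F l)| ≤ F(l)^θ`. Additive functions with `f (q^j) ≤ C q^j` and different values at different large primes,
the largest prime factor and Kempner's function are examples of such functions `f`, and `α v^d` with `α > 0`, `d ≥ 1` is an
example of `G`. -/
theorem result :
    (∀ d θ : ℝ, 1 ≤ d → 0 ≤ θ → θ < 1 → ∃ R : ℕ, ∀ G : ℕ → ℝ, Expanding G d →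
      ∀ fs : List (ℕ → ℕ), (∀ f ∈ fs, PD f) → ∃ c' K : ℝ, 0 < c' ∧ ∀ N : ℕ, 1 ≤ N →
        ({l : ℕ | 1 ≤ l ∧ l ≤ N ∧ ∃ a b c m n k : ℕ, Solution R a b c m n k ∧
          |((max a (max b c) : ℕ) : ℝ) - G (comp fs l)| ≤ (comp fs l : ℝ) ^ θ}.ncard : ℝ) ≤
          K * N * Real.exp (-(c' * Real.log N ^ ((1 : ℝ) / (fs.length + 1))))) ∧
    (∀ f : ℕ → ℕ, (∀ a b : ℕ, Nat.Coprime a b → f (a * b) = f a + f b) →
      (∃ C : ℕ, ∀ q j : ℕ, q.Prime → 1 ≤ j → f (q ^ j) ≤ C * q ^ j) →
      (∃ P : ℕ, ∀ p q : ℕ, p.Prime → q.Prime → P ≤ p → P ≤ q → f p = f q → p = q) → PD f) ∧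
    PD (fun n => n.primeFactors.sup id) ∧ PD (fun n => sInf {k : ℕ | n ∣ k.factorial}) ∧
    ∀ α d : ℝ, 0 < α → 1 ≤ d → Expanding (fun v => α * (v : ℝ) ^ d) d := by
  refine ⟨fun d θ hd hθ hθ1 => ?_, fun f hadd hgr hinj => pd_additive hadd hgr hinj, pd_largest, pd_kempner,
    fun α d hα hd => expanding_pow hα hd⟩
  have hδ0 : 0 < (1 - θ) / (2 * d) := div_pos (by linarith) (by linarith)
  have hδd : d * ((1 - θ) / (2 * d)) = (1 - θ) / 2 := by field_simp
  obtain ⟨R, C, hC, h⟩ := Pool.Agent.S821.FC.few_tops ((1 - θ) / (2 * d)) hδ0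
  refine ⟨R, fun G hG fs hfs => ?_⟩
  obtain ⟨c', K, hc', hK⟩ := good_nat (fun _ => True) (fun n => ¬ Pool.Agent.S821.FC.Top R n) fs hfs hG
    (s := (1 - θ) / (2 * d)) (κ := θ) hδ0.le hθ (by rw [hδd]; linarith) (fun ε hε => by
      refine ⟨C, fun X hX => ?_⟩
      have hX1 : (1 : ℝ) ≤ X := by exact_mod_cast hX
      simp only [not_not, true_and]
      refine (h X hX).trans (mul_le_mul_of_nonneg_left ?_ hC)
      apply Real.rpow_le_rpow_of_exponent_le hX1
      linarith)
  refine ⟨c', K, hc', fun N hN => le_trans ?_ (hK N hN)⟩
  apply Nat.cast_le.2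
  apply Set.ncard_le_ncard
  · rintro l ⟨h1, h2, a, b, c, m, n, k, hs, h3⟩
    refine ⟨h1, h2, fun hcon => ?_⟩
    exact hcon _ (Nat.succ_le_of_lt (lt_max_of_lt_left hs.1)) trivial h3 ⟨a, b, c, m, n, k, hs, rfl⟩
  · exact (Set.finite_Icc 1 N).subset (fun l hl => ⟨hl.1, hl.2.1⟩)

end Pool.Agent.Results.MP_2738db_nt.LargestBaseAdditiveValues
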