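import Mathlib
import Pool.Agent.U792.G2.Fin
import Pool.Agent.U792.G2.Crit

/-!
The Fermat-Catalan equation with signature `(2, 2n, r)`: `x ^ 2 + y ^ (2 n) = z ^ r`.

Let `n ≥ 3` and `r` be odd, `3 ≤ r ≤ 2 n + 1`, `x`, `y` coprime, `|y| ≥ 2` and `r` prime to `y` (first case).
Then `x` has a divisor `E` such that each prime factor `l` of `E` satisfies `gcd (n, l (l - 1)) > 1`
(for prime `n`: `l = n` or `l ≡ 1` modulo `n`) and `z ^ (1/2 - (r - 1)/(4 n)) ≤ 4 r E`. If `r ≤ n` then such a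
prime factor exists without exception. The case that `x` is an `m`-th power (signatures `(2m, 2n, r)`)
is included.

Proof. `x + i y ^ n = (u + i v) ^ r` in `ℤ[i]`, and `v` and `Im (u + i v) ^ r / v` are coprime and therefore
`n`-th powers `W ^ n` and `Y ^ n`. Modulo `u ^ 2` the second number is `± v ^ (r - 1)`, so that
`Y ^ n ≡ V ^ n` with `V = ± W ^ (r - 1)`. Let `D` be the part of `u` composed of the primes `l` with
`gcd (n, l (l - 1)) = 1`. The order of the unit group modulo `D ^ 2` is prime to `n`, so `Y ≡ V` modulo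
`D ^ 2`. Since `Y ≠ V` this gives `D ^ 2 ≤ |Y - V|`, which is small in comparison to `u ^ 2`: for `|v|` of size
`|u|` because `Y ^ n` and `V ^ n` have the size `z ^ ((r - 1)/2)` only, and for `|v|` much larger than
`|u|` because `Y ^ n - V ^ n` is of size `u ^ 2 v ^ (r - 3)`.
-/

set_option autoImplicit false

namespace Pool.Agent.Results.MP_2738db_nt.SumsWithAnEvenPower

theorem result (n r : ℕ) (hn : Odd n) (hn3 : 3 ≤ n) (hr : Odd r) (hr3 : 3 ≤ r)
    (hrn : r ≤ 2 * n + 1) (x y z : ℤ) (hxy : IsCoprime x y) (hy : 2 ≤ |y|)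
    (hry : IsCoprime (r : ℤ) y) (h : x ^ 2 + y ^ (2 * n) = z ^ r) :
    (∃ E : ℕ, (E : ℤ) ∣ x ∧ (∀ l : ℕ, l.Prime → l ∣ E → 1 < Nat.gcd n (l * (l - 1))) ∧
      (z : ℝ) ^ ((1 : ℝ) / 2 - ((r : ℝ) - 1) / (4 * n)) ≤ 4 * r * E) ∧
    (r ≤ n → ∃ l : ℕ, l.Prime ∧ (l : ℤ) ∣ x ∧ 1 < Nat.gcd n (l * (l - 1))) := by
  have hx : x ≠ 0 := by
    rintro rfl
    have h1 := isCoprime_zero_left.1 hxy
    rw [Int.isUnit_iff] at h1
    rcases h1 with rfl | rfl <;> simp at hy
  refine ⟨Pool.Agent.U792.G2.final hn hn3 hr hr3 hrn hxy hx hy hry h, fun hle => ?_⟩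
  obtain ⟨k, rfl⟩ := hr
  exact Pool.Agent.U792.G2.crit hn (by omega) hle hxy hy hry h

end Pool.Agent.Results.MP_2738db_nt.SumsWithAnEvenPower
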